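import Pool.Agent.Q122.MixedProofs

set_option autoImplicit false

namespace Pool.Agent.Results.MP_408802_co.NoConstant

open Q122

/-- Negative answer to Q1 of MP_408802_co: for every `α > 0` there are a finite mixed graph `G`
(with finite edge set `E` and finite arc set `A`) and weights `w : V → ℕ` such that every
orientation of `G` keeps less than `α * R(G, w)` of the weighted reachability. -/
theorem result : ∀ α : ℝ, 0 < α →
    ∃ (V E A : Type) (_ : Fintype V) (_ : Fintype E) (_ : Fintype A)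
      (G : MixedGraph V E A) (w : V → ℕ),
      ∀ o : E → Bool, ((G.orient o).R w : ℝ) < α * (G.R w : ℝ) := by
  intro α hα
  obtain ⟨n, hn⟩ := exists_pow_lt_of_lt_one (show (0 : ℝ) < α ^ 2 by positivity)
    (show (3 / 4 : ℝ) < 1 by norm_num)
  obtain ⟨V, E, A, hV, hE, hA, G, w, h1, h2⟩ := MixedGraph.butterfly n
  refine ⟨V, E, A, hV, hE, hA, G, w, fun o => ?_⟩
  have h3 : (((G.orient o).R w : ℝ)) ^ 2 ≤ 12 ^ n := by exact_mod_cast h2 o
  have h4 : (4 : ℝ) ^ n ≤ (G.R w : ℝ) := by exact_mod_cast h1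
  have h5 : (12 : ℝ) ^ n < (α * (4 : ℝ) ^ n) ^ 2 := by
    have e1 : (12 : ℝ) ^ n = (3 / 4) ^ n * 16 ^ n := by
      rw [← mul_pow]
      norm_num
    have e2 : (α * (4 : ℝ) ^ n) ^ 2 = α ^ 2 * 16 ^ n := by
      rw [mul_pow, ← pow_mul, mul_comm n 2, pow_mul]
      norm_num
    rw [e1, e2]
    exact mul_lt_mul_of_pos_right hn (by positivity)
  have h6 : ((G.orient o).R w : ℝ) < α * (4 : ℝ) ^ n := by
    refine lt_of_pow_lt_pow_left₀ 2 (by positivity) (lt_of_le_of_lt h3 h5)
  exact lt_of_lt_of_le h6 (mul_le_mul_of_nonneg_left h4 hα.le)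

end Pool.Agent.Results.MP_408802_co.NoConstant
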